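import Pool.Agent.Helper68.QC.St2

/-!
Project QD, part M, module TRI: continuity of trilinear integrals.
-/

set_option autoImplicit false

open MeasureTheory Set Filter Topology Complex
open scoped ContDiff ComplexConjugate ENNReal

namespace Pool.Agent.Helper79.QCM

open Pool.Agent.Helper68.QC

/-- products of `L²`-convergent sequences -/
private theorem tri_two {μ : Measure ℂ} {A B : ℕ → ℂ → ℂ} {a b : ℂ → ℂ}
    (hA : ∀ n, MemLp (A n) 2 μ) (ha : MemLp a 2 μ) (hB : ∀ n, MemLp (B n) 2 μ)
    (hb : MemLp b 2 μ)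
    (h1 : Tendsto (fun n => eLpNorm (fun z => A n z - a z) 2 μ) atTop (𝓝 0))
    (h2 : Tendsto (fun n => eLpNorm (fun z => B n z - b z) 2 μ) atTop (𝓝 0)) :
    Tendsto (fun n => ∫ z, A n z * B n z ∂μ) atTop (𝓝 (∫ z, a z * b z ∂μ)) := by
  have hab : AEStronglyMeasurable (fun z => a z * b z) μ := ha.1.mul hb.1
  apply tendsto_integral_of_L1' (fun z => a z * b z) hab
  · exact Eventually.of_forall fun n => (hA n).integrable_mul (hB n)
  have hbd : ∀ n, eLpNorm ((fun z => A n z * B n z) - fun z => a z * b z) 1 μ ≤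
      eLpNorm (fun z => A n z - a z) 2 μ *
        (eLpNorm (fun z => B n z - b z) 2 μ + eLpNorm b 2 μ) +
      eLpNorm a 2 μ * eLpNorm (fun z => B n z - b z) 2 μ := by
    intro n
    have m1 : AEStronglyMeasurable (fun z => A n z - a z) μ := (hA n).1.sub ha.1
    have m2 : AEStronglyMeasurable (fun z => B n z - b z) μ := (hB n).1.sub hb.1
    have e1 : ((fun z => A n z * B n z) - fun z => a z * b z) =
        ((fun z => A n z - a z) • (B n)) + (a • fun z => B n z - b z) := by
      funext z
      change A n z * B n z - a z * b z = (A n z - a z) * B n z + a z * (B n z - b z)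
      ring
    have e2 : B n = (fun z => B n z - b z) + b := by
      funext z
      simp
    rw [e1]
    refine (eLpNorm_add_le (m1.smul (hB n).1) (ha.1.smul m2) le_rfl).trans ?_
    have i1 : eLpNorm ((fun z => A n z - a z) • (B n)) 1 μ ≤
        eLpNorm (fun z => A n z - a z) 2 μ * eLpNorm (B n) 2 μ :=
      eLpNorm_smul_le_mul_eLpNorm (hB n).1 m1
    have i2 : eLpNorm (a • fun z => B n z - b z) 1 μ ≤
        eLpNorm a 2 μ * eLpNorm (fun z => B n z - b z) 2 μ :=
      eLpNorm_smul_le_mul_eLpNorm m2 ha.1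
    have i3 : eLpNorm (B n) 2 μ ≤ eLpNorm (fun z => B n z - b z) 2 μ + eLpNorm b 2 μ := by
      conv_lhs => rw [e2]
      exact eLpNorm_add_le m2 hb.1 (by norm_num)
    gcongr
    exact i1.trans (by gcongr)
  have hlim : Tendsto (fun n => eLpNorm (fun z => A n z - a z) 2 μ *
      (eLpNorm (fun z => B n z - b z) 2 μ + eLpNorm b 2 μ) +
      eLpNorm a 2 μ * eLpNorm (fun z => B n z - b z) 2 μ) atTop
      (𝓝 (0 * (0 + eLpNorm b 2 μ) + eLpNorm a 2 μ * 0)) := by
    refine Tendsto.add (ENNReal.Tendsto.mul h1 (Or.inr ?_) (h2.add tendsto_const_nhds)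
      (Or.inr ENNReal.zero_ne_top)) (ENNReal.Tendsto.const_mul h2 (Or.inr ha.2.ne))
    rw [zero_add]
    exact hb.2.ne
  simp only [zero_mul, mul_zero, add_zero] at hlim
  exact tendsto_of_tendsto_of_tendsto_of_le_of_le tendsto_const_nhds hlim
    (fun _ => bot_le) hbd

theorem pTRI : Pool.Agent.Helper68.QC.StTRI := by
  intro K F A B f a b hK hF hf hFf hA ha hB hb h1 h2
  have hKm : MeasurableSet K := hK.measurableSet
  have hbdd : ∀ g : ℂ → ℂ, ContinuousOn g K → ∀ c : ℂ → ℂ, MemLp c 2 (volume.restrict K) →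
      MemLp (fun z => g z * c z) 2 (volume.restrict K) := by
    intro g hg c hc
    obtain ⟨C, hC⟩ := hK.exists_bound_of_continuousOn hg
    refine MemLp.of_le_mul (c := C) hc ((hg.aestronglyMeasurable hKm).mul hc.1) ?_
    refine (ae_restrict_iff' hKm).2 (Eventually.of_forall fun z hz => ?_)
    rw [norm_mul]
    exact mul_le_mul_of_nonneg_right (hC z hz) (norm_nonneg _)
  obtain ⟨C, hC⟩ := hK.exists_bound_of_continuousOn hf
  have hC0 : 0 ≤ |C| := abs_nonneg C
  have hconv : Tendsto (fun n => eLpNorm (fun z => F n z * A n z - f z * a z) 2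
      (volume.restrict K)) atTop (𝓝 0) := by
    have hsum : ∀ ε : ℝ, 0 < ε → ∀ᶠ n in atTop,
        eLpNorm (fun z => F n z * A n z - f z * a z) 2 (volume.restrict K) ≤
        ENNReal.ofReal (|C| + ε) * eLpNorm (fun z => A n z - a z) 2 (volume.restrict K) +
          ENNReal.ofReal ε * eLpNorm a 2 (volume.restrict K) := by
      intro ε hε
      have hev := Metric.tendstoUniformlyOn_iff.1 hFf ε hε
      filter_upwards [hev] with n hn
      have m1 : AEStronglyMeasurable (fun z => A n z - a z) (volume.restrict K) :=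
        (hA n).1.sub ha.1
      have mF : AEStronglyMeasurable (F n) (volume.restrict K) :=
        (hF n).aestronglyMeasurable hKm
      have mf : AEStronglyMeasurable f (volume.restrict K) := hf.aestronglyMeasurable hKm
      have e1 : (fun z => F n z * A n z - f z * a z) =
          (fun z => F n z * (A n z - a z)) + fun z => (F n z - f z) * a z := by
        funext z
        simp only [Pi.add_apply]
        ring
      rw [e1]
      refine (eLpNorm_add_le (f := fun z => F n z * (A n z - a z))
        (g := fun z => (F n z - f z) * a z) (mF.mul m1) ((mF.sub mf).mul ha.1) (by norm_num)).trans ?_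
      refine add_le_add ?_ ?_
      · refine eLpNorm_le_mul_eLpNorm_of_ae_le_mul ?_ 2
        refine (ae_restrict_iff' hKm).2 (Eventually.of_forall fun z hz => ?_)
        rw [norm_mul]
        refine mul_le_mul_of_nonneg_right ?_ (norm_nonneg _)
        have h3 := hn z hz
        rw [dist_eq_norm] at h3
        have h4 : ‖F n z‖ ≤ ‖f z‖ + ‖f z - F n z‖ := by
          have := norm_sub_le (f z) (f z - F n z)
          simpa using this
        have h5 := hC z hz
        have h6 := le_abs_self C
        linarith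
      · refine eLpNorm_le_mul_eLpNorm_of_ae_le_mul ?_ 2
        refine (ae_restrict_iff' hKm).2 (Eventually.of_forall fun z hz => ?_)
        rw [norm_mul]
        refine mul_le_mul_of_nonneg_right ?_ (norm_nonneg _)
        have h3 := hn z hz
        rw [dist_eq_norm, norm_sub_rev] at h3
        exact h3.le
    rw [ENNReal.tendsto_nhds_zero]
    intro δ hδ
    rcases eq_or_ne δ ⊤ with rfl | hδt
    · exact Eventually.of_forall fun _ => le_top
    obtain ⟨ε, hε, hεδ⟩ : ∃ ε : ℝ, 0 < ε ∧
        ENNReal.ofReal ε * eLpNorm a 2 (volume.restrict K) < δ := by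
      have ht : Tendsto (fun ε : ℝ => ENNReal.ofReal ε * eLpNorm a 2 (volume.restrict K))
          (𝓝[>] 0) (𝓝 (ENNReal.ofReal 0 * eLpNorm a 2 (volume.restrict K))) :=
        (ENNReal.Tendsto.mul_const ((ENNReal.continuous_ofReal.tendsto 0).mono_left
          nhdsWithin_le_nhds) (Or.inr ha.2.ne))
      rw [ENNReal.ofReal_zero, zero_mul] at ht
      obtain ⟨ε, h3, h4⟩ := ((ht.eventually (gt_mem_nhds hδ)).and self_mem_nhdsWithin).exists
      exact ⟨ε, h4, h3⟩
    have ht : Tendsto (fun n => ENNReal.ofReal (|C| + ε) *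
        eLpNorm (fun z => A n z - a z) 2 (volume.restrict K) +
          ENNReal.ofReal ε * eLpNorm a 2 (volume.restrict K)) atTop
        (𝓝 (ENNReal.ofReal (|C| + ε) * 0 +
          ENNReal.ofReal ε * eLpNorm a 2 (volume.restrict K))) :=
      (ENNReal.Tendsto.const_mul h1 (Or.inr ENNReal.ofReal_ne_top)).add tendsto_const_nhds
    rw [mul_zero, zero_add] at ht
    filter_upwards [hsum ε hε, ht.eventually (gt_mem_nhds hεδ)] with n h3 h4
    exact h3.trans h4.le
  exact tri_two (fun n => hbdd _ (hF n) _ (hA n)) (hbdd _ hf _ ha) hB hb hconv h2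

end Pool.Agent.Helper79.QCM
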